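import Pool.Agent.W309.D3.Fin

/-!
# The order of vanishing of the `L`-function of an elliptic curve over a function field modulo three

Let `K` be a function field of characteristic at least five over a finite field `k` with `q`
elements and `E : y ^ 2 = x ^ 3 + a x + b` any elliptic curve over `K`. We bound the order of
vanishing of `L(T, E)` at `T = 1 / q` in terms of the zeta functions modulo three of the fields
generated by the `x`-coordinates and by the points of order three, and of local terms
(`BoundAll`). For the members of the pencils of elliptic curves over `k(t)` whose points of order
three are those of a constant curve without a `k`-rational subgroup of order three the bound becomes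
explicit (`BoundPencil`, `NoSubgroup`), and it gives `L(1 / q) ≠ 0` at all levels of the tower of the
iterates of `t ↦ t ^ p - t`, for every finite field `k` (`ZeroTower`).
-/

namespace Pool.Agent.Results.MP_ae0bd0_nt.ThreeDescentBound

open Pool.Agent.W309.D3

theorem result : BoundAll ∧ BoundPencil ∧ NoSubgroup ∧ ZeroTower :=
  ⟨boundAll, boundPencil, noSubgroup, zeroTower⟩

end Pool.Agent.Results.MP_ae0bd0_nt.ThreeDescentBound
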