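import Pool.Agent.W309.RK.Fin

/-!
# Rank equals order of vanishing, of unbounded size, for a family of elliptic curves

Let `p ≥ 5` be a prime, `f ≥ 1`, `d = p ^ f + 1`, and let `k` be a finite field with
`p ^ (2 f n)` elements. Let `h` in `k[t]` be an irreducible polynomial of odd degree such that `h - z`
is irreducible for all `z` in `k` with `z ^ d = 1`. Then
`E : y ^ 2 = x (x - 1) (x - h ^ d)` over `k(t)` has `p ^ f - 1` linearly independent points, and its
`L`-function vanishes at `T = 1 / |k|` to order at most `p ^ f - 1`. For all `p` and `f` there are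
such `k` and `h`, with `h` of arbitrarily large degree.
-/

open Polynomial

namespace Pool.Agent.Results.MP_ae0bd0_nt.UnboundedRankPullbacks

open Pool.Agent.W309.RK

theorem result :
    (∀ p f : ℕ, p.Prime → 5 ≤ p → 1 ≤ f → ∀ (k : Type) [Field k] [Finite k] (n : ℕ),
      Nat.card k = p ^ (2 * f * n) → ∀ h : k[X], IsGood (p ^ f + 1) h →
      RankAndOrder (p ^ f + 1) h (p ^ f - 1)) ∧
    (∀ p f : ℕ, p.Prime → 5 ≤ p → 1 ≤ f → ∃ (k : Type) (_ : Field k) (_ : Finite k) (n : ℕ),
      Nat.card k = p ^ (2 * f * n) ∧ ∀ N : ℕ, ∃ h : k[X], N ≤ h.natDegree ∧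
        IsGood (p ^ f + 1) h) := by
  constructor
  · intro p f hp hp5 hf k _ _ n hcard h hg
    exact main p f hp hp5 hf k n hcard h hg
  · intro p f hp hp5 hf
    have : Fact p.Prime := ⟨hp⟩
    obtain ⟨k, i1, i2, -, n, hcard, h⟩ := exists_family p f hf
    refine ⟨k, i1, i2, n, hcard, fun N => ?_⟩
    obtain ⟨g, h1, h2, h3, h4⟩ := h N
    exact ⟨g, h1, h3, h2, h4⟩

end Pool.Agent.Results.MP_ae0bd0_nt.UnboundedRankPullbacks
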